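import Pool.Agent.H52.CO.Ind

/-!
# [H52 CO Dp] existence of the deep part

`P` is a family of balls in the space `W`, `M` a lattice. If no type of `P` is between `a` and `b` (the number `rk` of directions of
`M` modulo `π` which are in `P (-T)` is the same for `T = a` and `T = b`) then the span `W1` of a maximal independent family in
`M ∩ P (-b)` is a deep part: `W1 ∩ M ⊆ P (-b)` and `M ∩ P (-T) ⊆ W1 + π ^ (T - a) M` for all `T ≤ b` (descent: a vector `y` of
`M ∩ P (-T)`, `T > a`, is `∑ c i x i + π z`, and `z` is in `M ∩ P (-(T - 1))`).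
-/

set_option autoImplicit false

namespace Pool.Agent.H52.CO

open Pool.Agent.H54.TT Pool.Agent.H98.RH Pool.Agent.H75.CO Matrix

variable {K : Type} [Field K] {v : K → ℤ} {hv : IsDV v} {n : ℕ} {π : Kˣ}

/-- a module over the valuation ring which is stable under all scalars, as a vector space -/
def sK {W : Lt hv n} (hW : IsSub W) : Submodule K (Fin n → K) where
  carrier := W
  add_mem' := fun h1 h2 => W.add_mem h1 h2
  zero_mem' := W.zero_mem
  smul_mem' := fun c x hx => hW c x hx

theorem mem_sK {W : Lt hv n} (hW : IsSub W) {x : Fin n → K} : x ∈ sK hW ↔ x ∈ W := Iff.rfl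

theorem span_eq_sK {W : Lt hv n} (hW : IsSub W) : Submodule.span K (W : Set (Fin n → K)) = sK hW :=
  le_antisymm (Submodule.span_le.2 fun _ h => h) fun _ h => Submodule.subset_span h

theorem dm_eq {W : Lt hv n} (hW : IsSub W) : dm W = Module.finrank K (sK hW) := by
  unfold dm
  rw [span_eq_sK hW]

/-- the space generated by a family, as a module over the valuation ring -/
def spn (hv : IsDV v) {r : ℕ} (x : Fin r → (Fin n → K)) : Lt hv n where
  carrier := (Submodule.span K (Set.range x) : Submodule K (Fin n → K))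
  add_mem' := fun h1 h2 => (Submodule.span K (Set.range x)).add_mem h1 h2
  zero_mem' := (Submodule.span K (Set.range x)).zero_mem
  smul_mem' := fun c _ hx => (Submodule.span K (Set.range x)).smul_mem (c : K) hx

theorem mem_spn {r : ℕ} {x : Fin r → (Fin n → K)} {y : Fin n → K} :
    y ∈ spn hv x ↔ ∃ c : Fin r → K, ∑ i, c i • x i = y := by
  show y ∈ Submodule.span K (Set.range x) ↔ _
  rw [Submodule.mem_span_range_iff_exists_fun]

theorem spn_isSub {r : ℕ} (x : Fin r → (Fin n → K)) : IsSub (spn hv x) :=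
  fun c _ hy => Submodule.smul_mem (Submodule.span K (Set.range x)) c hy

theorem dm_spn {r : ℕ} {x : Fin r → (Fin n → K)} (h : LinearIndependent K x) : dm (spn hv x) = r := by
  rw [dm_eq (spn_isSub x)]
  have h1 : sK (spn_isSub (hv := hv) x) = Submodule.span K (Set.range x) := by
    ext y
    exact Iff.rfl
  rw [h1, finrank_span_eq_card h, Fintype.card_fin]

theorem spn_le {r : ℕ} {x : Fin r → (Fin n → K)} {W : Lt hv n} (hW : IsSub W) (hx : ∀ i, x i ∈ W) : spn hv x ≤ W := by
  intro y hy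
  obtain ⟨c, rfl⟩ := mem_spn.1 hy
  exact W.sum_mem fun i _ => hW _ _ (hx i)

theorem IsSub.sh {W : Lt hv n} (hW : IsSub W) (k : ℤ) : Pool.Agent.H75.CO.sh π k W = W := by
  ext x
  rw [mem_sh]
  constructor
  · intro h
    have := hW ((π ^ k : Kˣ) : K) _ h
    rwa [smul_smul, ← Units.val_mul, ← _root_.zpow_add, add_neg_cancel, zpow_zero, Units.val_one, one_smul] at this
  · exact fun h => hW _ _ h

/-- the space of an independent family meets `M` in the integral combinations -/
theorem spn_inf_le (hπ : v π = 1) {M Q : Lt hv n} {r : ℕ} {x : Fin r → (Fin n → K)} (hx : ∀ i, x i ∈ Q) (h : IndP π M x) :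
    spn hv x ⊓ M ≤ Q := by
  rintro y ⟨hy, hyM⟩
  obtain ⟨c, rfl⟩ := mem_spn.1 hy
  have hc := h.coef hπ c hyM
  exact Q.sum_mem fun i _ => smul_mem_of (hc i) (hx i)

theorem exists_deep (hπ : v π = 1) {M W : Lt hv n} (hW : IsSub W) {P : ℝ → Lt hv n} (hmono : Monotone P)
    (hper : ∀ (t : ℝ) (k : ℤ), P (t + k) = sh π (-k) (P t)) (hPW : ∀ t, P t ≤ W) {a b : ℝ}
    (hrk : rk π M (M ⊓ P (-a)) = rk π M (M ⊓ P (-b))) :
    ∃ W1 : Lt hv n, IsSub W1 ∧ W1 ≤ W ∧ W1 ⊓ M ≤ P (-b) ∧ (∀ T ≤ b, M ⊓ P (-T) ≤ W1 ⊔ bl π M (a - T)) ∧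
      dm W1 = rk π M (M ⊓ P (-b)) := by
  obtain ⟨x, hx, hi⟩ := exists_rk hπ M (M ⊓ P (-b))
  refine ⟨spn hv x, spn_isSub x, spn_le hW fun i => hPW _ (hx i).2, ?_, ?_, dm_spn (hi.linearIndependent hπ)⟩
  · exact (spn_inf_le hπ hx hi).trans inf_le_right
  · suffices h : ∀ (N : ℕ) (T : ℝ), T ≤ b → -⌊a - T⌋ ≤ (N : ℤ) → M ⊓ P (-T) ≤ spn hv x ⊔ bl π M (a - T) by
      intro T hT
      exact h (-⌊a - T⌋).toNat T hT (Int.self_le_toNat _)
    intro N
    induction N with
    | zero =>
      intro T _ hN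
      refine inf_le_left.trans (le_trans ?_ le_sup_right)
      have h1 : sh π 0 M ≤ bl π M (a - T) := sh_le_sh hπ (by push_cast at hN; exact hN) M
      rwa [sh_zero] at h1
    | succ N ih =>
      intro T hT hN
      by_cases h0 : -⌊a - T⌋ ≤ 0
      · refine inf_le_left.trans (le_trans ?_ le_sup_right)
        have h1 : sh π 0 M ≤ bl π M (a - T) := sh_le_sh hπ h0 M
        rwa [sh_zero] at h1
      have haT : a ≤ T := by
        by_contra hlt
        push Not at hlt
        have : 0 ≤ ⌊a - T⌋ := Int.floor_nonneg.2 (by linarith)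
        omega
      rintro y hy
      have hQ : M ⊓ P (-T) ≤ M ⊓ P (-a) := inf_le_inf le_rfl (hmono (by linarith))
      have hQ' : M ⊓ P (-b) ≤ M ⊓ P (-T) := inf_le_inf le_rfl (hmono (by linarith))
      obtain ⟨c, hc, hyc⟩ := exists_coef hπ (Q := M ⊓ P (-T)) inf_le_left ((rk_mono hπ M hQ).trans hrk.le)
        (fun i => hQ' (hx i)) hi hy
      set w := y - ∑ i, c i • x i with hw
      have hwP : w ∈ P (-T) :=
        (P (-T)).sub_mem hy.2 ((P (-T)).sum_mem fun i _ => smul_mem_of (hc i) (hQ' (hx i)).2)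
      have hz1 : ((π ^ (-1 : ℤ) : Kˣ) : K) • w ∈ M := mem_sh.1 hyc
      have hz2 : ((π ^ (-1 : ℤ) : Kˣ) : K) • w ∈ P (-(T - 1)) := by
        have h1 : -(T - 1) = -T + ((1 : ℤ) : ℝ) := by push_cast; ring
        rw [h1, hper, mem_sh, smul_smul, ← Units.val_mul, ← _root_.zpow_add]
        rw [show (-(-1) + -1 : ℤ) = 0 by norm_num, zpow_zero, Units.val_one, one_smul]
        exact hwP
      have hfl : ⌊a - (T - 1)⌋ = ⌊a - T⌋ + 1 := by
        rw [show a - (T - 1) = a - T + 1 by ring, Int.floor_add_one]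
      have h2 := ih (T - 1) (by linarith) (by rw [hfl]; push_cast at hN ⊢; omega) ⟨hz1, hz2⟩
      have h3 : w ∈ spn hv x ⊔ bl π M (a - T) := by
        have h4 : ((π ^ (1 : ℤ) : Kˣ) : K) • (((π ^ (-1 : ℤ) : Kˣ) : K) • w) ∈ sh π 1 (spn hv x ⊔ bl π M (a - (T - 1))) :=
          (zpow_smul_mem_sh 1).2 h2
        rw [smul_smul, ← Units.val_mul, ← _root_.zpow_add, add_neg_cancel, zpow_zero, Units.val_one, one_smul] at h4
        rw [sh_sup, IsSub.sh (spn_isSub x)] at h4
        have h5 : sh π 1 (bl π M (a - (T - 1))) = bl π M (a - T) := by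
          unfold bl
          rw [sh_sh, hfl]
          congr 1
          ring
        rwa [h5] at h4
      have h6 : y = ∑ i, c i • x i + w := by rw [hw]; abel
      rw [h6]
      refine Submodule.add_mem _ (Submodule.mem_sup_left (mem_spn.2 ⟨c, rfl⟩)) h3

/-- the deep part is smaller than `W` -/
theorem rk_lt (hπ : v π = 1) {M W Q : Lt hv n} (hW : IsSub W) (hQW : Q ≤ W) (h : ¬ W ⊓ M ≤ Q) :
    rk π M Q < dm W := by
  obtain ⟨x, hx, hi⟩ := exists_rk hπ M Q
  have h1 : spn hv x ≤ W := spn_le hW fun i => hQW (hx i)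
  have h2 : Submodule.span K (Set.range x) ≤ sK hW := fun y hy => h1 hy
  have h3 := Submodule.finrank_mono h2
  rw [finrank_span_eq_card (hi.linearIndependent hπ), Fintype.card_fin, ← dm_eq hW] at h3
  refine lt_of_le_of_ne h3 ?_
  intro heq
  apply h
  have h4 : Submodule.span K (Set.range x) = sK hW := by
    refine Submodule.eq_of_le_of_finrank_eq h2 ?_
    rw [finrank_span_eq_card (hi.linearIndependent hπ), Fintype.card_fin, ← dm_eq hW, heq]
  have h5 : W ≤ spn hv x := by
    intro y hy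
    have : y ∈ sK hW := hy
    rw [← h4] at this
    exact this
  exact (inf_le_inf h5 le_rfl).trans (spn_inf_le hπ hx hi)

end Pool.Agent.H52.CO
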