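import Pool.Agent.H52.CO.Cb

/-!
# [H52 CO BC] base change for the norms `sg`

`sg_prec` (precision): the vectors which are small for the norm `sg k'`, `k' + 1 = k`, and in the ball of radius `t` of `sg k` are
in `B (t - β k) + π ^ Y M`: coordinates `i < k` are small, for `i ≥ k` the ball of `sg k` is the ball of `B`.
`base_change`: so `sg k` for `M` and for `M'` differ only by the factor `q ^ lam`, `lam = β' k - β k`, above the precision.
-/

set_option autoImplicit false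

namespace Pool.Agent.H52.CO

open Pool.Agent.H54.TT Pool.Agent.H98.RH Pool.Agent.H75.CO Matrix

variable {K : Type} [Field K] {v : K → ℤ} {hv : IsDV v} {n : ℕ} {π : Kˣ}

theorem exists_ad {B : ℝ → Lt hv n} (hB : Hn B) (h : GL (Fin n) K) :
    ∃ e β, Ad B (LM hv h) e β ∧ ∀ k, bt B (LM hv h) k = β k := by
  have h1 : ∃ e β, Ad B (LM hv h) e β := hB h
  refine ⟨h1.choose, h1.choose_spec.choose, h1.choose_spec.choose_spec, fun k => ?_⟩
  unfold bt
  rw [dif_pos h1]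

theorem sh_mono {k : ℤ} {M N : Lt hv n} (h : M ≤ N) : sh π k M ≤ sh π k N := Submodule.map_mono h

theorem sh_sh (j k : ℤ) (M : Lt hv n) : sh π j (sh π k M) = sh π (j + k) M := by
  ext x
  rw [mem_sh, mem_sh, mem_sh, smul_smul, ← Units.val_mul, ← _root_.zpow_add]
  have : -k + -j = -(j + k) := by ring
  rw [this]

theorem sh_zero (M : Lt hv n) : sh π 0 M = M := by
  ext x
  rw [mem_sh, neg_zero, zpow_zero, Units.val_one, one_smul]

theorem sh_sup (k : ℤ) (M N : Lt hv n) : sh π k (M ⊔ N) = sh π k M ⊔ sh π k N := Submodule.map_sup _ _ _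

/-- multiples of the uniformiser -/
theorem sh_le_sh (hπ : v π = 1) {j k : ℤ} (h : k ≤ j) (M : Lt hv n) : sh π j M ≤ sh π k M := by
  intro x hx
  rw [mem_sh] at *
  have h0 : Ge v 0 ((π ^ (j - k) : Kˣ) : K) := by
    intro _
    rw [v_zpow hv hπ]
    omega
  have h1 := M.smul_mem (⟨_, h0⟩ : Ov hv) hx
  have h2 : (⟨((π ^ (j - k) : Kˣ) : K), h0⟩ : Ov hv) • (((π ^ (-j) : Kˣ) : K) • x) = ((π ^ (-k) : Kˣ) : K) • x := by
    show ((π ^ (j - k) : Kˣ) : K) • (((π ^ (-j) : Kˣ) : K) • x) = _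
    rw [smul_smul, ← Units.val_mul, ← _root_.zpow_add]
    have : j - k + -j = -k := by ring
    rw [this]
  rwa [h2] at h1

theorem bl_mono (hπ : v π = 1) (M : Lt hv n) {s t : ℝ} (h : s ≤ t) : bl π M s ≤ bl π M t :=
  sh_le_sh hπ (neg_le_neg (Int.floor_le_floor h)) M

theorem bl_add_int (M : Lt hv n) (t : ℝ) (k : ℤ) : bl π M (t + k) = sh π (-k) (bl π M t) := by
  unfold bl
  rw [sh_sh, Int.floor_add_intCast]
  congr 1
  ring

/-- comparison of the balls of two lattices -/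
theorem bl_le {M N : Lt hv n} {R : ℕ} (h : sh π R M ≤ N) (t : ℝ) : bl π M t ≤ bl π N (t + R) := by
  have h1 : sh π (-⌊t + R⌋) (sh π R M) ≤ sh π (-⌊t + R⌋) N := sh_mono h
  rw [sh_sh] at h1
  have h2 : -⌊t + (R : ℝ)⌋ + (R : ℤ) = -⌊t⌋ := by
    rw [Int.floor_add_natCast]
    ring
  rw [h2] at h1
  exact h1

theorem Ad.sg {B : ℝ → Lt hv n} {M : Lt hv n} {e : GL (Fin n) K} {β : Fin n → ℝ} (h : Ad B M e β) (hπ : v π = 1)
    {k : Fin n} (hk : bt B M k = β k) (t : ℝ) :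
    Pool.Agent.H75.CO.sg π M B k t = cb hv e (fun i => min (-(t - β k) - β i) (-t)) := by
  unfold Pool.Agent.H75.CO.sg
  rw [hk, Ad.ball h, Ad.bl h hπ, cb_sup]

theorem Ad.monoB {B : ℝ → Lt hv n} {M : Lt hv n} {e : GL (Fin n) K} {β : Fin n → ℝ} (h : Ad B M e β) : Monotone B := by
  intro s t hst
  rw [Ad.ball h, Ad.ball h]
  exact cb_mono fun i => by linarith

/-- precision -/
theorem sg_prec (hπ : v π = 1) {B : ℝ → Lt hv n} (hB : Hn B) (h : GL (Fin n) K) {k' k : Fin n} (hk : (k' : ℕ) + 1 = k)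
    {Y : ℝ} {t : ℝ} :
    sg π (LM hv h) B k' (-Y) ⊓ sg π (LM hv h) B k t ≤ B (t - bt B (LM hv h) k) ⊔ bl π (LM hv h) (-Y) := by
  obtain ⟨e, β, he, hβ⟩ := exists_ad hB h
  rw [Ad.sg he hπ (hβ k'), Ad.sg he hπ (hβ k), hβ k, Ad.ball he, Ad.bl he hπ, cb_sup, cb_inf]
  refine cb_mono fun i => ?_
  by_cases hi : i ≤ k'
  · have h1 : β i ≤ β k' := he.mono hi
    refine le_trans (min_le_right _ _) (le_trans ?_ (le_max_left _ _))
    rw [min_eq_right (by linarith)]
  · have hki : k ≤ i := by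
      rw [Fin.le_def]
      rw [Fin.le_def] at hi
      omega
    have h1 : β k ≤ β i := he.mono hki
    refine le_trans (min_le_left _ _) (le_trans ?_ (le_max_right _ _))
    rw [min_eq_left (by linarith)]

/-- `sg` for `M` and for `M'` -/
theorem sg_le (hπ : v π = 1) {B : ℝ → Lt hv n} (hB : Hn B) (h h' : GL (Fin n) K) {k : Fin n} {R : ℕ}
    (hl : sh π R (LM hv h) ≤ LM hv h') (hb : bt B (LM hv h') k ≤ bt B (LM hv h) k + R) (t : ℝ) :
    sg π (LM hv h) B k t ≤ sg π (LM hv h') B k (t + R) := by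
  obtain ⟨e, β, he, hβ⟩ := exists_ad hB h
  refine sup_le_sup (Ad.monoB he ?_) (bl_le hl t)
  linarith

theorem base_change_le (hπ : v π = 1) {B : ℝ → Lt hv n} (hB : Hn B) (h h' : GL (Fin n) K) {k' k : Fin n}
    (hk : (k' : ℕ) + 1 = k) {R : ℕ} (hl : sh π R (LM hv h) ≤ LM hv h')
    (hb : bt B (LM hv h) k ≤ bt B (LM hv h') k + R) {Y t : ℝ} (ht : -Y + 2 * R ≤ t) :
    sg π (LM hv h) B k' (-Y) ⊓ sg π (LM hv h) B k t ≤
      sg π (LM hv h') B k (t + (bt B (LM hv h') k - bt B (LM hv h) k)) := by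
  refine (sg_prec hπ hB h hk).trans (sup_le ?_ ?_)
  · refine le_trans (le_of_eq ?_) le_sup_left
    congr 1
    ring
  · refine (bl_le hl _).trans ((bl_mono hπ _ ?_).trans le_sup_right)
    linarith

/-- base change -/
theorem base_change (hπ : v π = 1) {B : ℝ → Lt hv n} (hB : Hn B) (h h' : GL (Fin n) K) {k' k : Fin n}
    (hk : (k' : ℕ) + 1 = k) {R : ℕ} (hl : sh π R (LM hv h) ≤ LM hv h') (hl' : sh π R (LM hv h') ≤ LM hv h)
    (hb : ∀ j, |bt B (LM hv h') j - bt B (LM hv h) j| ≤ R) {Y t : ℝ} (ht : -Y + 4 * R ≤ t) {x : Fin n → K}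
    (hx : x ∈ sg π (LM hv h) B k' (-Y)) :
    x ∈ sg π (LM hv h) B k t ↔ x ∈ sg π (LM hv h') B k (t + (bt B (LM hv h') k - bt B (LM hv h) k)) := by
  have hbk := abs_le.1 (hb k)
  have hbk' := abs_le.1 (hb k')
  have hR : (0 : ℝ) ≤ R := Nat.cast_nonneg R
  constructor
  · intro hxt
    exact base_change_le hπ hB h h' hk hl (by linarith) (by linarith) ⟨hx, hxt⟩
  · intro hxt
    have h1 : x ∈ sg π (LM hv h') B k' (-(Y - R)) := by
      have h2 := sg_le hπ hB h h' (k := k') hl (by linarith) (-Y) hx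
      have h3 : -Y + (R : ℝ) = -(Y - R) := by ring
      rwa [h3] at h2
    have h2 := base_change_le hπ hB h' h hk hl' (by linarith) (Y := Y - R)
      (t := t + (bt B (LM hv h') k - bt B (LM hv h) k)) (by linarith) ⟨h1, hxt⟩
    have h3 : t + (bt B (LM hv h') k - bt B (LM hv h) k) + (bt B (LM hv h) k - bt B (LM hv h') k) = t := by ring
    rwa [h3] at h2

/-- the first norm is the norm itself up to a factor -/
theorem sg_zero (hπ : v π = 1) {B : ℝ → Lt hv n} (hB : Hn B) (h : GL (Fin n) K) {k : Fin n} (hk : (k : ℕ) = 0) (t : ℝ) :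
    sg π (LM hv h) B k t = B (t - bt B (LM hv h) k) := by
  obtain ⟨e, β, he, hβ⟩ := exists_ad hB h
  rw [Ad.sg he hπ (hβ k), hβ k, Ad.ball he]
  congr 1
  funext i
  have h1 : β k ≤ β i := he.mono (by rw [Fin.le_def]; omega)
  exact min_eq_left (by linarith)

end Pool.Agent.H52.CO
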