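import Pool.Agent.H75.CO.Defs

/-!
# [H52 CO Cb] modules defined by conditions on the coordinates with respect to a basis

`cb e r`: the vectors whose coordinates `x i` with respect to `e` have valuation at least `r i` (real numbers). Sums and
intersections are computed coordinatewise; the lattice of `e`, its multiples, and the balls of a norm with adapted basis `e` are
of this form.
-/

set_option autoImplicit false

namespace Pool.Agent.H52.CO

open Pool.Agent.H54.TT Pool.Agent.H98.RH Pool.Agent.H75.CO Matrix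

section

variable {K : Type} [Field K] {v : K → ℤ}

theorem geR_iff {r : ℝ} {x : K} : GeR v r x ↔ Ge v ⌈r⌉ x := by
  unfold GeR Ge
  constructor
  · exact fun h hx => Int.ceil_le.2 (h hx)
  · exact fun h hx => Int.ceil_le.1 (h hx)

theorem geR_zero (r : ℝ) : GeR v r (0 : K) := fun h => absurd rfl h

theorem GeR.mono {r s : ℝ} (h : s ≤ r) {x : K} (hx : GeR v r x) : GeR v s x := fun h0 => h.trans (hx h0)

theorem geR_add (hv : IsDV v) {r : ℝ} {x y : K} (hx : GeR v r x) (hy : GeR v r y) : GeR v r (x + y) := by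
  rw [geR_iff] at *
  exact ge_add hv hx hy

theorem geR_neg (hv : IsDV v) {r : ℝ} {x : K} (hx : GeR v r x) : GeR v r (-x) := by
  rw [geR_iff] at *
  exact ge_neg hv hx

theorem geR_mul (hv : IsDV v) {r : ℝ} {c x : K} (hc : Ge v 0 c) (hx : GeR v r x) : GeR v r (c * x) := by
  rw [geR_iff] at *
  have := ge_mul hv hc hx
  rwa [zero_add] at this

theorem geR_min_iff {r s : ℝ} {x : K} : GeR v (min r s) x ↔ GeR v r x ∨ GeR v s x := by
  constructor
  · intro h
    rcases le_total r s with h1 | h1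
    · rw [min_eq_left h1] at h
      exact Or.inl h
    · rw [min_eq_right h1] at h
      exact Or.inr h
  · rintro (h | h)
    · exact GeR.mono (min_le_left _ _) h
    · exact GeR.mono (min_le_right _ _) h

theorem geR_max_iff {r s : ℝ} {x : K} : GeR v (max r s) x ↔ GeR v r x ∧ GeR v s x := by
  constructor
  · exact fun h => ⟨GeR.mono (le_max_left _ _) h, GeR.mono (le_max_right _ _) h⟩
  · exact fun h h0 => max_le (h.1 h0) (h.2 h0)

end

section

variable {K : Type} [Field K] {v : K → ℤ} {hv : IsDV v} {n : ℕ}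

/-- coordinates with respect to the basis `e` -/
def co (e : GL (Fin n) K) (x : Fin n → K) : Fin n → K := (e⁻¹ : GL (Fin n) K).val *ᵥ x

theorem co_add (e : GL (Fin n) K) (x y : Fin n → K) : co e (x + y) = co e x + co e y := Matrix.mulVec_add _ _ _

theorem co_smul (e : GL (Fin n) K) (c : K) (x : Fin n → K) : co e (c • x) = c • co e x := Matrix.mulVec_smul _ _ _

theorem co_mulVec (e : GL (Fin n) K) (y : Fin n → K) : co e (e.val *ᵥ y) = y := by
  unfold co
  rw [Matrix.mulVec_mulVec]
  have : (e⁻¹ : GL (Fin n) K).val * e.val = 1 := by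
    have h := congrArg Units.val (inv_mul_cancel e)
    exact h
  rw [this, Matrix.one_mulVec]

theorem mulVec_co (e : GL (Fin n) K) (x : Fin n → K) : e.val *ᵥ co e x = x := by
  unfold co
  rw [Matrix.mulVec_mulVec]
  have : e.val * (e⁻¹ : GL (Fin n) K).val = 1 := by
    have h := congrArg Units.val (mul_inv_cancel e)
    exact h
  rw [this, Matrix.one_mulVec]

/-- conditions on the coordinates -/
def cb (hv : IsDV v) (e : GL (Fin n) K) (r : Fin n → ℝ) : Lt hv n where
  carrier := {x | ∀ i, GeR v (r i) (co e x i)}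
  add_mem' := by
    intro x y hx hy i
    rw [co_add]
    exact geR_add hv (hx i) (hy i)
  zero_mem' := by
    intro i
    have : co e (0 : Fin n → K) = 0 := Matrix.mulVec_zero _
    rw [this]
    exact geR_zero _
  smul_mem' := by
    intro c x hx i
    have : co e (c • x) = (c : K) • co e x := co_smul e (c : K) x
    rw [this]
    exact geR_mul hv c.2 (hx i)

theorem mem_cb {e : GL (Fin n) K} {r : Fin n → ℝ} {x : Fin n → K} : x ∈ cb hv e r ↔ ∀ i, GeR v (r i) (co e x i) := Iff.rfl

theorem cb_mono {e : GL (Fin n) K} {r s : Fin n → ℝ} (h : ∀ i, s i ≤ r i) : cb hv e r ≤ cb hv e s :=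
  fun _ hx i => GeR.mono (h i) (hx i)

theorem cb_sup (e : GL (Fin n) K) (r s : Fin n → ℝ) : cb hv e r ⊔ cb hv e s = cb hv e (fun i => min (r i) (s i)) := by
  classical
  refine le_antisymm (sup_le (cb_mono fun i => min_le_left _ _) (cb_mono fun i => min_le_right _ _)) ?_
  intro x hx
  rw [mem_cb] at hx
  rw [Submodule.mem_sup]
  refine ⟨e.val *ᵥ (fun i => if GeR v (r i) (co e x i) then co e x i else 0), ?_,
    e.val *ᵥ (fun i => if GeR v (r i) (co e x i) then 0 else co e x i), ?_, ?_⟩
  · intro i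
    rw [co_mulVec]
    split_ifs with h
    · exact h
    · exact geR_zero _
  · intro i
    rw [co_mulVec]
    split_ifs with h
    · exact geR_zero _
    · exact (geR_min_iff.1 (hx i)).resolve_left h
  · rw [← Matrix.mulVec_add]
    have : ((fun i => if GeR v (r i) (co e x i) then co e x i else 0) + fun i => if GeR v (r i) (co e x i) then 0 else co e x i)
        = co e x := by
      funext i
      rw [Pi.add_apply]
      split_ifs
      · rw [add_zero]
      · rw [zero_add]
    rw [this, mulVec_co]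

theorem cb_inf (e : GL (Fin n) K) (r s : Fin n → ℝ) : cb hv e r ⊓ cb hv e s = cb hv e (fun i => max (r i) (s i)) := by
  ext x
  rw [Submodule.mem_inf, mem_cb, mem_cb, mem_cb]
  constructor
  · exact fun h i => geR_max_iff.2 ⟨h.1 i, h.2 i⟩
  · exact fun h => ⟨fun i => (geR_max_iff.1 (h i)).1, fun i => (geR_max_iff.1 (h i)).2⟩

theorem LM_eq (e : GL (Fin n) K) : LM hv e = cb hv e (fun _ => 0) := by
  ext x
  unfold LM
  rw [Submodule.mem_map]
  constructor
  · rintro ⟨y, hy, rfl⟩ i
    show GeR v 0 (co e (e.val *ᵥ y) i)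
    rw [co_mulVec, geR_iff, Int.ceil_zero]
    exact hy i
  · intro hx
    refine ⟨co e x, ?_, mulVec_co e x⟩
    intro i
    have := hx i
    rw [geR_iff, Int.ceil_zero] at this
    exact this

theorem v_zpow (hv : IsDV v) {π : Kˣ} (hπ : v π = 1) (k : ℤ) : v ((π ^ k : Kˣ) : K) = k := by
  have hn : ∀ m : ℕ, v ((π ^ m : Kˣ) : K) = m := by
    intro m
    induction m with
    | zero => rw [pow_zero, Units.val_one, hv.one]; rfl
    | succ m ih =>
      rw [pow_succ, Units.val_mul, hv.mul _ _ (Units.ne_zero _) (Units.ne_zero _), ih, hπ]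
      push_cast
      ring
  cases k with
  | ofNat m => exact hn m
  | negSucc m =>
    have h2 : Int.negSucc m = -((m : ℤ) + 1) := Int.negSucc_eq m
    rw [zpow_negSucc, Units.val_inv_eq_inv_val, hv.inv (Units.ne_zero _), hn, h2]
    push_cast
    ring

theorem geR_zpow (hv : IsDV v) {π : Kˣ} (hπ : v π = 1) (k : ℤ) {r : ℝ} {x : K} :
    GeR v r (((π ^ k : Kˣ) : K) * x) ↔ GeR v (r - k) x := by
  unfold GeR
  constructor
  · intro h hx
    have := h (mul_ne_zero (Units.ne_zero _) hx)
    rw [hv.mul _ _ (Units.ne_zero _) hx, v_zpow hv hπ] at this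
    push_cast at this
    linarith
  · intro h hx
    have hx' := right_ne_zero_of_mul hx
    have := h hx'
    rw [hv.mul _ _ (Units.ne_zero _) hx', v_zpow hv hπ]
    push_cast
    linarith

theorem mem_sh {π : Kˣ} {k : ℤ} {M : Lt hv n} {x : Fin n → K} : x ∈ sh π k M ↔ ((π ^ (-k) : Kˣ) : K) • x ∈ M := by
  unfold sh
  rw [Submodule.mem_map]
  constructor
  · rintro ⟨y, hy, rfl⟩
    show ((π ^ (-k) : Kˣ) : K) • (((π ^ k : Kˣ) : K) • y) ∈ M
    rw [smul_smul, ← Units.val_mul, ← _root_.zpow_add, neg_add_cancel, zpow_zero, Units.val_one, one_smul]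
    exact hy
  · intro h
    refine ⟨((π ^ (-k) : Kˣ) : K) • x, h, ?_⟩
    show ((π ^ k : Kˣ) : K) • (((π ^ (-k) : Kˣ) : K) • x) = x
    rw [smul_smul, ← Units.val_mul, ← _root_.zpow_add, add_neg_cancel, zpow_zero, Units.val_one, one_smul]

theorem sh_cb {π : Kˣ} (hπ : v π = 1) (k : ℤ) (e : GL (Fin n) K) (r : Fin n → ℝ) :
    sh π k (cb hv e r) = cb hv e (fun i => r i + k) := by
  ext x
  rw [mem_sh, mem_cb, mem_cb]
  refine forall_congr' fun i => ?_
  rw [co_smul, Pi.smul_apply, smul_eq_mul, geR_zpow hv hπ]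
  have : r i - ((-k : ℤ) : ℝ) = r i + k := by push_cast; ring
  rw [this]

theorem cb_ceil (e : GL (Fin n) K) (r : Fin n → ℝ) : cb hv e r = cb hv e (fun i => (⌈r i⌉ : ℝ)) := by
  ext x
  rw [mem_cb, mem_cb]
  refine forall_congr' fun i => ?_
  rw [geR_iff, geR_iff, Int.ceil_intCast]

theorem bl_cb {π : Kˣ} (hπ : v π = 1) (e : GL (Fin n) K) (t : ℝ) :
    bl π (LM hv e) t = cb hv e (fun _ => -t) := by
  unfold bl
  rw [LM_eq, sh_cb hπ, cb_ceil e (fun _ => -t)]
  congr 1
  funext i
  rw [Int.ceil_neg]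
  push_cast
  ring

theorem Ad.ball {B : ℝ → Lt hv n} {M : Lt hv n} {e : GL (Fin n) K} {β : Fin n → ℝ} (h : Ad B M e β) (t : ℝ) :
    B t = cb hv e (fun i => -t - β i) := by
  ext x
  rw [h.mem, mem_cb]
  rfl

theorem Ad.bl {B : ℝ → Lt hv n} {M : Lt hv n} {e : GL (Fin n) K} {β : Fin n → ℝ} (h : Ad B M e β) {π : Kˣ} (hπ : v π = 1)
    (t : ℝ) : Pool.Agent.H75.CO.bl π M t = cb hv e (fun _ => -t) := by
  rw [← h.lat, bl_cb hπ]

end

end Pool.Agent.H52.CO
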