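import Pool.Agent.H52.CO.BC

/-!
# [H52 CO Ind] families which are independent modulo `π`

`IndP M x`: every integral combination of the vectors `x i` which is in `π M` has coefficients in `π O`. Such families are linearly
independent over `K` (`M` a lattice), so they have at most `n` members. A family in `Q` of maximal size `rk M Q` generates
`Q` modulo `π M`.
-/

set_option autoImplicit false

namespace Pool.Agent.H52.CO

open Pool.Agent.H54.TT Pool.Agent.H98.RH Pool.Agent.H75.CO Matrix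

variable {K : Type} [Field K] {v : K → ℤ} {hv : IsDV v} {n : ℕ} {π : Kˣ}

/-- independent modulo `π` -/
def IndP (π : Kˣ) (M : Lt hv n) {r : ℕ} (x : Fin r → (Fin n → K)) : Prop :=
  ∀ c : Fin r → K, (∀ i, Ge v 0 (c i)) → ∑ i, c i • x i ∈ sh π 1 M → ∀ i, Ge v 1 (c i)

/-- multiplication with integral elements -/
theorem smul_mem_of {M : Lt hv n} {c : K} (hc : Ge v 0 c) {x : Fin n → K} (hx : x ∈ M) : c • x ∈ M :=
  M.smul_mem (⟨c, hc⟩ : Ov hv) hx

theorem zpow_smul_mem_sh (k : ℤ) {M : Lt hv n} {x : Fin n → K} : ((π ^ k : Kˣ) : K) • x ∈ sh π k M ↔ x ∈ M := by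
  rw [mem_sh, smul_smul, ← Units.val_mul, ← _root_.zpow_add, neg_add_cancel, zpow_zero, Units.val_one, one_smul]

/-- multiplication with an element of valuation at least `k` -/
theorem smul_mem_sh (hπ : v π = 1) {k : ℤ} {M : Lt hv n} {c : K} (hc : Ge v k c) {x : Fin n → K} (hx : x ∈ M) :
    c • x ∈ sh π k M := by
  rw [mem_sh, smul_smul]
  refine smul_mem_of ?_ hx
  have h1 : Ge v (-k) ((π ^ (-k) : Kˣ) : K) := fun _ => by rw [v_zpow hv hπ]
  have h2 := ge_mul hv h1 hc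
  rwa [neg_add_cancel] at h2

/-- the coefficients of the elements of `M` are integral -/
theorem IndP.coef (hπ : v π = 1) {M : Lt hv n} {r : ℕ} {x : Fin r → (Fin n → K)} (h : IndP π M x) (c : Fin r → K)
    (hc : ∑ i, c i • x i ∈ M) : ∀ i, Ge v 0 (c i) := by
  classical
  by_contra hno
  obtain ⟨i0, hi0⟩ := not_forall.1 hno
  have hi0' : c i0 ≠ 0 ∧ v (c i0) < 0 := by
    unfold Ge at hi0
    push Not at hi0
    exact hi0
  -- a coefficient of least valuation
  obtain ⟨i1, hi1m, hi1⟩ := Finset.exists_min_image (Finset.univ.filter fun i => c i ≠ 0) (fun i => v (c i))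
    ⟨i0, Finset.mem_filter.2 ⟨Finset.mem_univ _, hi0'.1⟩⟩
  have h1 : c i1 ≠ 0 := (Finset.mem_filter.1 hi1m).2
  have h2 : ∀ i, c i ≠ 0 → v (c i1) ≤ v (c i) := fun i hi => hi1 i (Finset.mem_filter.2 ⟨Finset.mem_univ _, hi⟩)
  have h3 : v (c i1) < 0 := (h2 i0 hi0'.1).trans_lt hi0'.2
  set m := v (c i1) with hm
  have h4 : ∀ i, Ge v 0 (((π ^ (-m) : Kˣ) : K) * c i) := by
    intro i h0
    have hi := right_ne_zero_of_mul h0
    rw [hv.mul _ _ (Units.ne_zero _) hi, v_zpow hv hπ]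
    have := h2 i hi
    omega
  have h5 : ∑ i, (((π ^ (-m) : Kˣ) : K) * c i) • x i ∈ sh π 1 M := by
    have e1 : ∑ i, (((π ^ (-m) : Kˣ) : K) * c i) • x i = ((π ^ (-m) : Kˣ) : K) • ∑ i, c i • x i := by
      rw [Finset.smul_sum]
      exact Finset.sum_congr rfl fun i _ => by rw [mul_smul]
    rw [e1]
    refine smul_mem_sh hπ ?_ hc
    intro _
    rw [v_zpow hv hπ]
    omega
  have h6 := h _ h4 h5 i1 (mul_ne_zero (Units.ne_zero _) h1)
  rw [hv.mul _ _ (Units.ne_zero _) h1, v_zpow hv hπ] at h6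
  omega

theorem IndP.linearIndependent (hπ : v π = 1) {M : Lt hv n} {r : ℕ} {x : Fin r → (Fin n → K)} (h : IndP π M x) :
    LinearIndependent K x := by
  rw [Fintype.linearIndependent_iff]
  intro c hc i
  by_contra hi
  have h1 : ∑ j, (((π ^ (-v (c i) - 1) : Kˣ) : K) * c j) • x j ∈ M := by
    have e1 : ∑ j, (((π ^ (-v (c i) - 1) : Kˣ) : K) * c j) • x j = ((π ^ (-v (c i) - 1) : Kˣ) : K) • ∑ j, c j • x j := by
      rw [Finset.smul_sum]
      exact Finset.sum_congr rfl fun i _ => by rw [mul_smul]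
    rw [e1, hc, smul_zero]
    exact M.zero_mem
  have h2 := h.coef hπ _ h1 i (mul_ne_zero (Units.ne_zero _) hi)
  rw [hv.mul _ _ (Units.ne_zero _) hi, v_zpow hv hπ] at h2
  omega

theorem IndP.le (hπ : v π = 1) {M : Lt hv n} {r : ℕ} {x : Fin r → (Fin n → K)} (h : IndP π M x) : r ≤ n := by
  have h1 := (h.linearIndependent hπ).fintype_card_le_finrank
  rwa [Fintype.card_fin, Module.finrank_fin_fun] at h1

/-- the sizes of the independent families in `Q` -/
def szs (π : Kˣ) (M Q : Lt hv n) : Set ℕ := {r | ∃ x : Fin r → (Fin n → K), (∀ i, x i ∈ Q) ∧ IndP π M x}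

/-- the largest size of an independent family in `Q` -/
noncomputable def rk (π : Kˣ) (M Q : Lt hv n) : ℕ := sSup (szs π M Q)

theorem szs_bdd (hπ : v π = 1) (M Q : Lt hv n) : BddAbove (szs π M Q) :=
  ⟨n, fun _ ⟨_, _, h⟩ => h.le hπ⟩

theorem szs_ne (M Q : Lt hv n) : (szs π M Q).Nonempty :=
  ⟨0, Fin.elim0, fun i => i.elim0, fun _ _ _ i => i.elim0⟩

theorem exists_rk (hπ : v π = 1) (M Q : Lt hv n) :
    ∃ x : Fin (rk π M Q) → (Fin n → K), (∀ i, x i ∈ Q) ∧ IndP π M x :=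
  Nat.sSup_mem (szs_ne M Q) (szs_bdd hπ M Q)

theorem le_rk (hπ : v π = 1) {M Q : Lt hv n} {r : ℕ} {x : Fin r → (Fin n → K)} (hx : ∀ i, x i ∈ Q) (h : IndP π M x) :
    r ≤ rk π M Q := le_csSup (szs_bdd hπ M Q) ⟨x, hx, h⟩

theorem rk_mono (hπ : v π = 1) (M : Lt hv n) {Q Q' : Lt hv n} (h : Q ≤ Q') : rk π M Q ≤ rk π M Q' := by
  obtain ⟨x, hx, hi⟩ := exists_rk hπ M Q
  exact le_rk hπ (fun i => h (hx i)) hi

theorem rk_le (hπ : v π = 1) (M Q : Lt hv n) : rk π M Q ≤ n := by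
  obtain ⟨x, -, hi⟩ := exists_rk hπ M Q
  exact hi.le hπ

/-- a family of maximal size generates modulo `π M` -/
theorem exists_coef (hπ : v π = 1) {M Q : Lt hv n} (hQ : Q ≤ M) {r : ℕ} (hr : rk π M Q ≤ r) {x : Fin r → (Fin n → K)}
    (hx : ∀ i, x i ∈ Q) (h : IndP π M x) {y : Fin n → K} (hy : y ∈ Q) :
    ∃ c : Fin r → K, (∀ i, Ge v 0 (c i)) ∧ y - ∑ i, c i • x i ∈ sh π 1 M := by
  have hno : ¬ IndP π M (Fin.cons y x : Fin (r + 1) → (Fin n → K)) := by
    intro h1
    have := le_rk hπ (Q := Q) (x := (Fin.cons y x : Fin (r + 1) → (Fin n → K))) (fun i => by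
      refine Fin.cases ?_ (fun i => ?_) i
      · exact hy
      · exact hx i) h1
    omega
  unfold IndP at hno
  push Not at hno
  obtain ⟨c, hc, hs, i0, hi0⟩ := hno
  rw [Fin.sum_univ_succ] at hs
  simp only [Fin.cons_zero, Fin.cons_succ] at hs
  have hc0 : ¬ Ge v 1 (c 0) := by
    intro h0
    have h1 : c 0 • y ∈ sh π 1 M := smul_mem_sh hπ h0 (hQ hy)
    have h2 : ∑ i : Fin r, c i.succ • x i ∈ sh π 1 M := by
      have := (sh π 1 M).sub_mem hs h1
      rwa [add_sub_cancel_left] at this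
    have h3 := h _ (fun i => hc i.succ) h2
    refine Fin.cases ?_ (fun i => ?_) i0 hi0
    · exact fun h => h h0
    · exact fun h => h (h3 i)
  have hne : c 0 ≠ 0 := by
    intro h0
    rw [h0] at hc0
    exact hc0 (ge_zero hv 1)
  have hv0 : v (c 0) = 0 := by
    have h1 := hc 0 hne
    have h2 : ¬ (1 ≤ v (c 0)) := fun h => hc0 fun _ => h
    omega
  have hinv : Ge v 0 (c 0)⁻¹ := by
    intro _
    rw [hv.inv hne, hv0]
    simp
  refine ⟨fun i => -((c 0)⁻¹ * c i.succ), fun i => ?_, ?_⟩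
  · have := ge_neg hv (ge_mul hv hinv (hc i.succ))
    rwa [add_zero] at this
  · have e1 : y - ∑ i : Fin r, (-((c 0)⁻¹ * c i.succ)) • x i = (c 0)⁻¹ • (c 0 • y + ∑ i : Fin r, c i.succ • x i) := by
      rw [smul_add, smul_smul, inv_mul_cancel₀ hne, one_smul, Finset.smul_sum, sub_eq_add_neg, ← Finset.sum_neg_distrib]
      congr 1
      exact Finset.sum_congr rfl fun i _ => by rw [neg_smul, neg_neg, mul_smul]
    rw [e1]
    exact smul_mem_of hinv hs

end Pool.Agent.H52.CO
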