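import Pool.Agent.H52.CO.Ux
import Pool.Agent.H75.CO.Blk

/-!
# [H52 CO Ncs] the shape of a nonzero block is not constant

`closed`: a subspace `W1` is the intersection of the modules `W1 + π ^ k M`, `M` a lattice. `ne_add_one`: if `Φ t = Φ (t + 1)` then `Φ`
is constant, `= W` by `big`, and `W ≤ W1 + π ^ k M` for all `k` by `gen`, so `W = W1`.
-/

set_option autoImplicit false

namespace Pool.Agent.H52.CO

open Pool.Agent.H54.TT Pool.Agent.H98.RH Pool.Agent.H75.CO Matrix

variable {K : Type} [Field K] {v : K → ℤ} {hv : IsDV v} {n : ℕ} {π : Kˣ}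

theorem closed_of (hπ : v π = 1) (h : GL (Fin n) K) {W1 : Lt hv n} (hW1 : IsSub W1) {x : Fin n → K}
    (hx : ∀ k : ℕ, x ∈ W1 ⊔ sh π k (LM hv h)) : x ∈ W1 := by
  obtain ⟨m, e, f, he⟩ := exists_onv (hv := hv) ((sK hW1).comap (Matrix.mulVecLin h.val))
  -- the difference of `x` and its projection to `W1`
  set q : (Fin n → K) → (Fin n → K) := fun y => y - ∑ i, y (f i) • e i with hq
  have hq0 : ∀ w ∈ W1, q (co h w) = 0 := by
    intro w hw
    have h2 : co h w ∈ (sK hW1).comap (Matrix.mulVecLin h.val) := by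
      rw [Submodule.mem_comap, Matrix.mulVecLin_apply, mulVec_co]
      exact hw
    rw [hq]
    dsimp only
    rw [← he.eq _ h2, sub_self]
  have hqadd : ∀ y z, q (y + z) = q y + q z := by
    intro y z
    rw [hq]
    dsimp only
    have h1 : ∑ i, (y + z) (f i) • e i = ∑ i, y (f i) • e i + ∑ i, z (f i) • e i := by
      rw [← Finset.sum_add_distrib]
      exact Finset.sum_congr rfl fun i _ => by rw [Pi.add_apply, add_smul]
    rw [h1]
    abel
  have hqM : ∀ (k : ℕ) (y : Fin n → K), (∀ i, Ge v k (y i)) → ∀ i, Ge v k (q y i) := by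
    intro k y hy i
    rw [hq]
    dsimp only
    rw [Pi.sub_apply, sub_eq_add_neg, Finset.sum_apply]
    refine ge_add hv (hy i) (ge_neg hv (ge_sum (hv := hv) fun j => ?_))
    rw [Pi.smul_apply, smul_eq_mul]
    have := ge_mul hv (hy (f j)) (he.le j i)
    rwa [add_zero] at this
  have h0 : q (co h x) = 0 := by
    funext i
    by_contra hne
    obtain ⟨a, ha, b, hb, hab⟩ := Submodule.mem_sup.1 (hx ((v (q (co h x) i)).toNat + 1))
    have h1 : q (co h x) = q (co h b) := by
      rw [← hab, co_add, hqadd, hq0 a ha, zero_add]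
    have h2 := hqM _ _ ((mem_sh_LM hπ).1 hb) i
    rw [← h1] at h2
    have h3 := h2 hne
    have h4 := Int.self_le_toNat (v (q (co h x) i))
    push_cast at h3
    omega
  have h1 : co h x = ∑ i, (co h x) (f i) • e i := by
    rw [hq] at h0
    exact sub_eq_zero.1 h0
  have h2 : co h x ∈ (sK hW1).comap (Matrix.mulVecLin h.val) := by
    rw [h1]
    exact Submodule.sum_mem _ fun i _ => Submodule.smul_mem _ _ (he.mem i)
  rw [Submodule.mem_comap, Matrix.mulVecLin_apply, mulVec_co] at h2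
  exact h2

theorem ne_add_one (hπ : v π = 1) (h : GL (Fin n) K) {W W1 : Lt hv n} (hW1 : IsSub W1) (hne : W1 ≠ W) {Φ : ℝ → Lt hv n}
    {X0 : ℝ} (hb : Bk π (LM hv h) W W1 Φ X0) (t : ℝ) : Φ t ≠ Φ (t + 1) := by
  intro heq
  have hc : ∀ k : ℕ, Φ (t + k) = Φ t := by
    intro k
    induction k with
    | zero => rw [Nat.cast_zero, add_zero]
    | succ k ih =>
      have h1 : t + ((k + 1 : ℕ) : ℝ) = t + 1 + ((k : ℤ) : ℝ) := by push_cast; ring
      rw [h1, hb.nm.per, ← heq, ← hb.nm.per]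
      exact ih
  have hc' : ∀ k : ℕ, Φ (t - k) = Φ t := by
    intro k
    have h1 := hb.nm.per (t - k) ((k : ℕ) : ℤ)
    have h2 : t - k + (((k : ℕ) : ℤ) : ℝ) = t := by push_cast; ring
    rw [h2] at h1
    have h3 := hb.nm.per t ((k : ℕ) : ℤ)
    have h4 : t + (((k : ℕ) : ℤ) : ℝ) = t + (k : ℝ) := by push_cast; ring
    rw [h4, hc k, h1] at h3
    exact (sh_inj.1 h3.symm).symm ▸ h1.symm ▸ rfl
  have hWΦ : W ≤ Φ t := by
    intro x hx
    obtain ⟨k, hk⟩ := exists_mem_sh (hv := hv) hπ h x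
    obtain ⟨N, hN⟩ := exists_nat_ge (-(k : ℝ) - t)
    have h1 : x ∈ Φ ((-k : ℤ) : ℝ) := by
      refine hb.big _ ⟨hx, ?_⟩
      rw [bl_int, neg_neg]
      exact hk
    rw [← hc N]
    refine hb.nm.mono ?_ h1
    push_cast
    linarith
  have hle : ∀ k : ℕ, W ≤ W1 ⊔ sh π k (LM hv h) := by
    intro k
    obtain ⟨N, hN⟩ := exists_nat_ge (t + X0 + k)
    refine hWΦ.trans ?_
    rw [← hc' N]
    refine (hb.gen _).trans ?_
    rw [sup_comm]
    refine sup_le_sup le_rfl (inf_le_right.trans ?_)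
    have h1 : bl π (LM hv h) (t - N + X0) ≤ bl π (LM hv h) ((-(k : ℤ) : ℤ) : ℝ) := by
      refine Pool.Agent.H75.CO.bl_mono hπ _ ?_
      push_cast
      linarith
    rwa [bl_int, neg_neg] at h1
  apply hne
  refine le_antisymm ((hb.ge t).trans (hb.le t)) ?_
  intro x hx
  exact closed_of hπ h hW1 fun k => hle k hx

end Pool.Agent.H52.CO
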