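import Mathlib.Data.Real.Basic
import Mathlib.Data.Fintype.Card
import Mathlib.Tactic.Linarith
import Mathlib.Tactic.Ring

/-!
# [H52 CO Pg] pigeonhole on scales
-/

set_option autoImplicit false

namespace Pool.Agent.H52.CO

/-- an antitone function with at most `D + 1` values is constant on an interval of length `m` -/
theorem exists_window {D : ℕ} (f : ℕ → ℕ) (hf : Antitone f) (hD : ∀ i, f i ≤ D) (lo m : ℕ) :
    ∃ a b, lo ≤ a ∧ a + m ≤ b ∧ b ≤ lo + (m + 1) * (D + 1) ∧ f a = f b := by
  by_contra hno
  push Not at hno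
  have key : ∀ i, i ≤ D + 1 → f (lo + i * m) + i ≤ D := by
    intro i
    induction i with
    | zero => exact fun _ => by simpa using hD _
    | succ i ih =>
      intro hi
      have h1 := ih (by omega)
      have h2 : f (lo + i * m) ≠ f (lo + (i + 1) * m) := by
        refine hno _ _ (Nat.le_add_right _ _) ?_ ?_
        · rw [Nat.succ_mul]
          omega
        · have : (i + 1) * m ≤ (D + 1) * m := Nat.mul_le_mul_right m (by omega)
          have h3 : (m + 1) * (D + 1) = (D + 1) * m + (D + 1) := by ring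
          omega
      have h3 : f (lo + (i + 1) * m) ≤ f (lo + i * m) := hf (by
        have : i * m ≤ (i + 1) * m := Nat.mul_le_mul_right m (by omega)
        omega)
      omega
  have := key (D + 1) le_rfl
  omega

/-- no member of a finite sequence is between two thresholds -/
theorem exists_free {n : ℕ} (y : Fin n → ℝ) {Λ : ℕ → ℝ} (hΛ : Monotone Λ) (lo m : ℕ) :
    ∃ a b, lo ≤ a ∧ a + m ≤ b ∧ b ≤ lo + (m + 1) * (n + 1) ∧ ∀ k, y k ≤ Λ a ∨ Λ b ≤ y k := by
  classical
  obtain ⟨a, b, h1, h2, h3, h4⟩ := exists_window (D := n) (fun i => (Finset.univ.filter fun k => Λ i < y k).card)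
    (fun i j hij => Finset.card_le_card fun k hk => by
      rw [Finset.mem_filter] at hk ⊢
      exact ⟨hk.1, (hΛ hij).trans_lt hk.2⟩)
    (fun i => (Finset.card_le_univ _).trans_eq (Fintype.card_fin n)) lo m
  refine ⟨a, b, h1, h2, h3, fun k => ?_⟩
  by_contra hk
  push Not at hk
  have hsub : (Finset.univ.filter fun k => Λ b < y k) ⊆ Finset.univ.filter fun k => Λ a < y k := by
    intro j hj
    rw [Finset.mem_filter] at hj ⊢
    exact ⟨hj.1, (hΛ (by omega : a ≤ b)).trans_lt hj.2⟩
  have heq := Finset.eq_of_subset_of_card_le hsub h4.le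
  have hmem : k ∈ Finset.univ.filter fun k => Λ a < y k := Finset.mem_filter.2 ⟨Finset.mem_univ _, hk.1⟩
  rw [← heq, Finset.mem_filter] at hmem
  linarith [hmem.2, hk.2]

end Pool.Agent.H52.CO
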