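import Pool.Agent.H52.CO.Dp

/-!
# [H52 CO Ux] two approximations of a subspace differ by an element of `1 + π ^ D End M`

`exists_onv`: a subspace `W` of `K^n` has a basis `e` with integral entries and coordinates `f` with `e i (f j) = δ i j` (induction
on the dimension, a coordinate of least valuation). `exists_u`: if `W1 ∩ M` is in `W1' + π ^ D M` and conversely, `W1, W1' ⊆ W`,
choose `e' i` in `W1'` with `e' i - e i` in `π ^ D M`, and `u y = y + ∑ y (f i) (e' i - e i)`.
-/

set_option autoImplicit false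

namespace Pool.Agent.H52.CO

open Pool.Agent.H54.TT Pool.Agent.H98.RH Pool.Agent.H75.CO Matrix

variable {K : Type} [Field K] {v : K → ℤ} {hv : IsDV v} {n : ℕ} {π : Kˣ}

/-- basis of a subspace with a unit matrix as a minor -/
structure Onv (v : K → ℤ) {m : ℕ} (W : Submodule K (Fin n → K)) (e : Fin m → (Fin n → K)) (f : Fin m → Fin n) : Prop where
  mem : ∀ i, e i ∈ W
  one : ∀ i j, e i (f j) = if i = j then 1 else 0
  le : ∀ i j, Ge v 0 (e i j)
  eq : ∀ x ∈ W, x = ∑ i, x (f i) • e i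

theorem exists_lv (v : K → ℤ) {x : Fin n → K} (hx : x ≠ 0) : ∃ i, x i ≠ 0 ∧ ∀ j, x j ≠ 0 → v (x i) ≤ v (x j) := by
  classical
  obtain ⟨i0, hi0⟩ : ∃ i, x i ≠ 0 := by
    by_contra h
    push Not at h
    exact hx (funext h)
  obtain ⟨i, hi, h⟩ := Finset.exists_min_image (Finset.univ.filter fun i => x i ≠ 0) (fun i => v (x i))
    ⟨i0, Finset.mem_filter.2 ⟨Finset.mem_univ _, hi0⟩⟩
  exact ⟨i, (Finset.mem_filter.1 hi).2, fun j hj => h j (Finset.mem_filter.2 ⟨Finset.mem_univ _, hj⟩)⟩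

include hv in
theorem ge_sum {r : ℕ} {k : ℤ} {x : Fin r → K} (h : ∀ i, Ge v k (x i)) : Ge v k (∑ i, x i) := by
  classical
  induction (Finset.univ : Finset (Fin r)) using Finset.induction_on with
  | empty => rw [Finset.sum_empty]; exact ge_zero hv k
  | insert a s ha ih =>
    rw [Finset.sum_insert ha]
    exact ge_add hv (h a) ih

include hv in
theorem exists_onv (W : Submodule K (Fin n → K)) :
    ∃ (m : ℕ) (e : Fin m → (Fin n → K)) (f : Fin m → Fin n), Onv v W e f := by
  suffices h : ∀ d : ℕ, ∀ W : Submodule K (Fin n → K), Module.finrank K W ≤ d →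
      ∃ (m : ℕ) (e : Fin m → (Fin n → K)) (f : Fin m → Fin n), Onv v W e f from h _ W le_rfl
  intro d
  induction d with
  | zero =>
    intro W hW
    have h0 : W = ⊥ := Submodule.finrank_eq_zero.1 (Nat.le_zero.1 hW)
    refine ⟨0, Fin.elim0, Fin.elim0, ⟨fun i => i.elim0, fun i => i.elim0, fun i => i.elim0, ?_⟩⟩
    intro x hx
    rw [h0, Submodule.mem_bot] at hx
    rw [hx]
    simp
  | succ d ih =>
    intro W hW
    by_cases h0 : W = ⊥
    · refine ⟨0, Fin.elim0, Fin.elim0, ⟨fun i => i.elim0, fun i => i.elim0, fun i => i.elim0, ?_⟩⟩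
      intro x hx
      rw [h0, Submodule.mem_bot] at hx
      rw [hx]
      simp
    obtain ⟨x, hxW, hx0⟩ := Submodule.exists_mem_ne_zero_of_ne_bot h0
    obtain ⟨j, hj0, hj⟩ := exists_lv v hx0
    set W' : Submodule K (Fin n → K) := W ⊓ LinearMap.ker (LinearMap.proj (R := K) (φ := fun _ : Fin n => K) j) with hW'
    have hmem : ∀ {z : Fin n → K}, z ∈ W' ↔ z ∈ W ∧ z j = 0 := by
      intro z
      rw [hW', Submodule.mem_inf, LinearMap.mem_ker, LinearMap.proj_apply]
    have hlt : W' < W := by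
      refine lt_of_le_of_ne inf_le_left ?_
      intro h
      rw [← h] at hxW
      exact hj0 (hmem.1 hxW).2
    have hfin : Module.finrank K W' < Module.finrank K W := Submodule.finrank_lt_finrank_of_lt hlt
    obtain ⟨m, e, f, he⟩ := ih W' (by omega)
    set y : Fin n → K := (x j)⁻¹ • x with hy
    have hyW : y ∈ W := W.smul_mem _ hxW
    have hyj : y j = 1 := by
      rw [hy, Pi.smul_apply, smul_eq_mul, inv_mul_cancel₀ hj0]
    have hyle : ∀ l, Ge v 0 (y l) := by
      intro l
      rw [hy, Pi.smul_apply, smul_eq_mul]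
      intro h1
      have h2 := right_ne_zero_of_mul h1
      rw [hv.mul _ _ (inv_ne_zero hj0) h2, hv.inv hj0]
      have := hj l h2
      omega
    set e0 : Fin n → K := y - ∑ i, y (f i) • e i with he0
    have heW : ∀ i, e i ∈ W ∧ e i j = 0 := fun i => hmem.1 (he.mem i)
    have he0j : e0 j = 1 := by
      rw [he0, Pi.sub_apply, hyj, Finset.sum_apply]
      rw [Finset.sum_eq_zero]
      · rw [sub_zero]
      · intro i _
        rw [Pi.smul_apply, (heW i).2, smul_zero]
    have he0f : ∀ k, e0 (f k) = 0 := by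
      intro k
      rw [he0, Pi.sub_apply, Finset.sum_apply]
      rw [Finset.sum_eq_single k]
      · rw [Pi.smul_apply, he.one, if_pos rfl, smul_eq_mul, mul_one, sub_self]
      · intro i _ hik
        rw [Pi.smul_apply, he.one, if_neg hik, smul_zero]
      · intro h
        exact absurd (Finset.mem_univ k) h
    have he0W : e0 ∈ W := W.sub_mem hyW (W.sum_mem fun i _ => W.smul_mem _ (heW i).1)
    have he0le : ∀ l, Ge v 0 (e0 l) := by
      intro l
      rw [he0, Pi.sub_apply, sub_eq_add_neg]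
      refine ge_add hv (hyle l) (ge_neg hv ?_)
      rw [Finset.sum_apply]
      refine ge_sum (hv := hv) fun i => ?_
      rw [Pi.smul_apply, smul_eq_mul]
      have := ge_mul hv (hyle (f i)) (he.le i l)
      rwa [add_zero] at this
    refine ⟨m + 1, Fin.cons e0 e, Fin.cons j f, ⟨?_, ?_, ?_, ?_⟩⟩
    · intro i
      refine Fin.cases ?_ (fun i => ?_) i
      · exact he0W
      · exact (heW i).1
    · intro i k
      refine Fin.cases ?_ (fun i => ?_) i
      · refine Fin.cases ?_ (fun k => ?_) k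
        · rw [Fin.cons_zero, Fin.cons_zero, if_pos rfl]
          exact he0j
        · rw [Fin.cons_zero, Fin.cons_succ, if_neg (Fin.succ_ne_zero k).symm]
          exact he0f k
      · refine Fin.cases ?_ (fun k => ?_) k
        · rw [Fin.cons_zero, Fin.cons_succ, if_neg (Fin.succ_ne_zero i)]
          exact (heW i).2
        · rw [Fin.cons_succ, Fin.cons_succ, he.one]
          by_cases h : i = k
          · rw [if_pos h, if_pos (by rw [h])]
          · rw [if_neg h, if_neg fun h1 => h (Fin.succ_injective _ h1)]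
    · intro i l
      refine Fin.cases ?_ (fun i => ?_) i
      · rw [Fin.cons_zero]
        exact he0le l
      · rw [Fin.cons_succ]
        exact he.le i l
    · intro z hz
      have hz' : z - z j • e0 ∈ W' := by
        rw [hmem]
        refine ⟨W.sub_mem hz (W.smul_mem _ he0W), ?_⟩
        rw [Pi.sub_apply, Pi.smul_apply, he0j, smul_eq_mul, mul_one, sub_self]
      have h1 := he.eq _ hz'
      have h2 : ∀ i, (z - z j • e0) (f i) = z (f i) := by
        intro i
        rw [Pi.sub_apply, Pi.smul_apply, he0f, smul_zero, sub_zero]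
      rw [Fin.sum_univ_succ]
      simp only [Fin.cons_zero, Fin.cons_succ]
      have h3 : ∑ i, (z - z j • e0) (f i) • e i = ∑ i, z (f i) • e i := Finset.sum_congr rfl fun i _ => by rw [h2]
      rw [h3] at h1
      rw [← h1]
      abel

theorem Onv.coord {m : ℕ} {W : Submodule K (Fin n → K)} {e : Fin m → (Fin n → K)} {f : Fin m → Fin n} (h : Onv v W e f)
    (c : Fin m → K) (k : Fin m) : (∑ i, c i • e i) (f k) = c k := by
  rw [Finset.sum_apply, Finset.sum_eq_single k]
  · rw [Pi.smul_apply, h.one, if_pos rfl, smul_eq_mul, mul_one]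
  · intro i _ hik
    rw [Pi.smul_apply, h.one, if_neg hik, smul_zero]
  · intro h
    exact absurd (Finset.mem_univ k) h

theorem Onv.finrank_eq {m : ℕ} {W : Submodule K (Fin n → K)} {e : Fin m → (Fin n → K)} {f : Fin m → Fin n}
    (h : Onv v W e f) : Module.finrank K W = m := by
  have h1 : LinearIndependent K e := by
    rw [Fintype.linearIndependent_iff]
    intro c hc k
    have := h.coord c k
    rw [hc] at this
    exact this.symm
  have h2 : Submodule.span K (Set.range e) = W := by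
    refine le_antisymm (Submodule.span_le.2 ?_) ?_
    · rintro _ ⟨i, rfl⟩
      exact h.mem i
    · intro x hx
      rw [h.eq x hx]
      exact Submodule.sum_mem _ fun i _ => Submodule.smul_mem _ _ (Submodule.subset_span ⟨i, rfl⟩)
  rw [← h2, finrank_span_eq_card h1, Fintype.card_fin]

/-! ### images of subspaces -/

theorem mem_mv {u : GL (Fin n) K} {W : Lt hv n} {y : Fin n → K} : y ∈ mv u W ↔ ∃ x ∈ W, u.val *ᵥ x = y := by
  unfold mv
  rw [Submodule.mem_map]
  exact Iff.rfl

theorem mv_isSub {u : GL (Fin n) K} {W : Lt hv n} (hW : IsSub W) : IsSub (mv u W) := by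
  intro c y hy
  obtain ⟨x, hx, rfl⟩ := mem_mv.1 hy
  exact mem_mv.2 ⟨c • x, hW c x hx, Matrix.mulVec_smul _ _ _⟩

theorem mulVec_inj (u : GL (Fin n) K) : Function.Injective fun x : Fin n → K => u.val *ᵥ x := by
  intro x y h
  have h1 := congrArg (co u) h
  dsimp only at h1
  rwa [co_mulVec, co_mulVec] at h1

theorem dm_mv (u : GL (Fin n) K) {W : Lt hv n} (hW : IsSub W) : dm (mv u W) = dm W := by
  rw [dm_eq (mv_isSub hW), dm_eq hW]
  have h1 : sK (mv_isSub (u := u) hW) = (sK hW).map (Matrix.mulVecLin u.val) := by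
    ext y
    rw [mem_sK, mem_mv, Submodule.mem_map]
    exact Iff.rfl
  rw [h1]
  exact (Submodule.equivMapOfInjective (Matrix.mulVecLin u.val) (mulVec_inj u) (sK hW)).finrank_eq.symm

theorem dm_mono {W W' : Lt hv n} (hW : IsSub W) (hW' : IsSub W') (h : W ≤ W') : dm W ≤ dm W' := by
  rw [dm_eq hW, dm_eq hW']
  exact Submodule.finrank_mono (show sK hW ≤ sK hW' from fun x hx => h hx)

theorem eq_of_dm {W W' : Lt hv n} (hW : IsSub W) (hW' : IsSub W') (h : W ≤ W') (hd : dm W' ≤ dm W) : W = W' := by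
  refine le_antisymm h ?_
  rw [dm_eq hW, dm_eq hW'] at hd
  have h1 : sK hW ≤ sK hW' := fun x hx => h hx
  have h2 : sK hW = sK hW' := Submodule.eq_of_le_of_finrank_le h1 hd
  intro x hx
  have h3 : x ∈ sK hW' := hx
  rw [← h2] at h3
  exact h3

/-! ### the element `u` -/

theorem mem_LM {h : GL (Fin n) K} {x : Fin n → K} : x ∈ LM hv h ↔ ∀ i, Ge v 0 (co h x i) := by
  rw [LM_eq, mem_cb]
  refine forall_congr' fun i => ?_
  rw [geR_iff, Int.ceil_zero]

theorem mem_sh_LM (hπ : v π = 1) {h : GL (Fin n) K} {k : ℤ} {x : Fin n → K} :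
    x ∈ sh π k (LM hv h) ↔ ∀ i, Ge v k (co h x i) := by
  rw [LM_eq, sh_cb hπ, mem_cb]
  refine forall_congr' fun i => ?_
  rw [geR_iff, zero_add, Int.ceil_intCast]

theorem exists_u_le (hπ : v π = 1) (h : GL (Fin n) K) {D : ℕ} (hD : 1 ≤ D) {W W1 W1' : Lt hv n} (hW : IsSub W)
    (hW1 : IsSub W1) (hle : W1 ≤ W) (hle' : W1' ≤ W) (hW1' : IsSub W1')
    (h1 : W1 ⊓ LM hv h ≤ W1' ⊔ sh π D (LM hv h)) :
    ∃ u : GL (Fin n) K, (∀ x ∈ LM hv h, u.val *ᵥ x - x ∈ sh π D (LM hv h)) ∧ (∀ x, u.val *ᵥ x - x ∈ W) ∧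
      mv u W1 ≤ W1' := by
  classical
  obtain ⟨m, e, f, he⟩ := exists_onv (hv := hv) ((sK hW1).comap (Matrix.mulVecLin h.val))
  set x : Fin m → (Fin n → K) := fun i => h.val *ᵥ e i with hx
  have hxW : ∀ i, x i ∈ W1 := fun i => he.mem i
  have hxM : ∀ i, x i ∈ LM hv h := by
    intro i
    rw [mem_LM]
    intro j
    rw [hx]
    dsimp only
    rw [co_mulVec]
    exact he.le i j
  have hex : ∀ i, ∃ x' ∈ W1', x' - x i ∈ sh π D (LM hv h) := by
    intro i
    obtain ⟨a, ha, b, hb, hab⟩ := Submodule.mem_sup.1 (h1 ⟨hxW i, hxM i⟩)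
    refine ⟨a, ha, ?_⟩
    rw [← hab, sub_add_cancel_left]
    exact Submodule.neg_mem _ hb
  choose x' hx'W hx' using hex
  set δ : Fin m → (Fin n → K) := fun i => co h (x' i - x i) with hδ
  have hδD : ∀ i l, Ge v D (δ i l) := fun i => (mem_sh_LM hπ).1 (hx' i)
  set N : Matrix (Fin n) (Fin n) K := 1 + Matrix.of fun l k => ∑ i, if f i = k then δ i l else 0 with hN
  have hNy : ∀ y : Fin n → K, N *ᵥ y = y + ∑ i, y (f i) • δ i := by
    intro y
    rw [hN, Matrix.add_mulVec, Matrix.one_mulVec]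
    congr 1
    funext l
    rw [Finset.sum_apply]
    show ∑ k, (∑ i, if f i = k then δ i l else 0) * y k = _
    simp only [Finset.sum_mul]
    rw [Finset.sum_comm]
    refine Finset.sum_congr rfl fun i _ => ?_
    rw [Finset.sum_eq_single (f i)]
    · rw [if_pos rfl, Pi.smul_apply, smul_eq_mul, mul_comm]
    · intro k _ hk
      rw [if_neg (Ne.symm hk), zero_mul]
    · intro hk
      exact absurd (Finset.mem_univ _) hk
  have hdet : N.det ≠ 0 := by
    intro h0
    obtain ⟨y, hy0, hy⟩ := Matrix.exists_mulVec_eq_zero_iff.2 h0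
    rw [hNy] at hy
    obtain ⟨i, hi0, hi⟩ := exists_lv v hy0
    have h2 : Ge v (D + v (y i)) (∑ j, y (f j) * δ j i) := by
      refine ge_sum (hv := hv) fun j => ?_
      have h3 : Ge v (v (y i)) (y (f j)) := fun h4 => hi _ h4
      have := ge_mul hv h3 (hδD j i)
      rwa [add_comm] at this
    have h3 : y i = -∑ j, y (f j) * δ j i := by
      have h4 := congrFun hy i
      rw [Pi.add_apply, Finset.sum_apply, Pi.zero_apply] at h4
      exact eq_neg_of_add_eq_zero_left h4
    have h4 := ge_neg hv h2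
    rw [← h3] at h4
    have := h4 hi0
    omega
  set Nu : GL (Fin n) K := Matrix.GeneralLinearGroup.mkOfDetNeZero N hdet with hNu
  have hu : ∀ y, (h * Nu * h⁻¹ : GL (Fin n) K).val *ᵥ y = y + ∑ i, (co h y) (f i) • (x' i - x i) := by
    intro y
    have e1 : (h * Nu * h⁻¹ : GL (Fin n) K).val *ᵥ y = h.val *ᵥ (N *ᵥ (co h y)) := by
      unfold co
      rw [Matrix.mulVec_mulVec, Matrix.mulVec_mulVec]
      rfl
    rw [e1, hNy, Matrix.mulVec_add, mulVec_co]
    congr 1
    have e2 := map_sum (Matrix.mulVecLin h.val) (fun i => (co h y) (f i) • δ i) Finset.univ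
    rw [Matrix.mulVecLin_apply] at e2
    rw [e2]
    refine Finset.sum_congr rfl fun i _ => ?_
    rw [Matrix.mulVecLin_apply, Matrix.mulVec_smul, hδ]
    dsimp only
    rw [mulVec_co]
  refine ⟨h * Nu * h⁻¹, ?_, ?_, ?_⟩
  · intro y hy
    rw [hu, add_sub_cancel_left]
    exact Submodule.sum_mem _ fun i _ => smul_mem_of (mem_LM.1 hy (f i)) (hx' i)
  · intro y
    rw [hu, add_sub_cancel_left]
    exact Submodule.sum_mem _ fun i _ => hW _ _ (W.sub_mem (hle' (hx'W i)) (hle (hxW i)))
  · intro z hz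
    obtain ⟨y, hy, rfl⟩ := mem_mv.1 hz
    rw [hu]
    have h2 : co h y ∈ (sK hW1).comap (Matrix.mulVecLin h.val) := by
      rw [Submodule.mem_comap, Matrix.mulVecLin_apply, mulVec_co]
      exact hy
    have h3 := he.eq _ h2
    have h4 : y = ∑ i, (co h y) (f i) • x i := by
      have h5 := congrArg (fun z => h.val *ᵥ z) h3
      rw [mulVec_co] at h5
      have e2 := map_sum (Matrix.mulVecLin h.val) (fun i => (co h y) (f i) • e i) Finset.univ
      rw [Matrix.mulVecLin_apply] at e2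
      rw [e2] at h5
      refine h5.trans (Finset.sum_congr rfl fun i _ => ?_)
      rw [Matrix.mulVecLin_apply, Matrix.mulVec_smul]
    have h6 : y + ∑ i, (co h y) (f i) • (x' i - x i) = ∑ i, (co h y) (f i) • x' i := by
      have h7 : ∑ i, (co h y) (f i) • (x' i - x i) = ∑ i, (co h y) (f i) • x' i - ∑ i, (co h y) (f i) • x i := by
        rw [← Finset.sum_sub_distrib]
        exact Finset.sum_congr rfl fun i _ => smul_sub _ _ _
      rw [h7, ← h4]
      abel
    rw [h6]
    exact Submodule.sum_mem _ fun i _ => hW1' _ _ (hx'W i)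

/-- (U) -/
theorem exists_u (hπ : v π = 1) (h : GL (Fin n) K) {D : ℕ} (hD : 1 ≤ D) {W W1 W1' : Lt hv n} (hW : IsSub W)
    (hW1 : IsSub W1) (hW1' : IsSub W1') (hle : W1 ≤ W) (hle' : W1' ≤ W)
    (h1 : W1 ⊓ LM hv h ≤ W1' ⊔ sh π D (LM hv h)) (h2 : W1' ⊓ LM hv h ≤ W1 ⊔ sh π D (LM hv h)) :
    ∃ u : GL (Fin n) K, (∀ x ∈ LM hv h, u.val *ᵥ x - x ∈ sh π D (LM hv h)) ∧ (∀ x, u.val *ᵥ x - x ∈ W) ∧
      mv u W1 = W1' := by
  obtain ⟨u, hu1, hu2, hu3⟩ := exists_u_le hπ h hD hW hW1 hle hle' hW1' h1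
  obtain ⟨u', -, -, hu'⟩ := exists_u_le hπ h hD hW hW1' hle' hle hW1 h2
  refine ⟨u, hu1, hu2, eq_of_dm (mv_isSub hW1) hW1' hu3 ?_⟩
  rw [dm_mv u hW1, ← dm_mv u' hW1']
  exact dm_mono (mv_isSub hW1') hW1 hu'

end Pool.Agent.H52.CO
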